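import Pool.Agent.Q54.EM.StmC

set_option autoImplicit false

namespace Pool.Agent.Q98.EM

open Finset Pool.Agent.Q54.EM

lemma ee_id {ι : Type} [Fintype ι] {p x : ι → ℝ} (h : Law p x) (hE : S_EEL) (n : ℕ) :
    EE p x n (fun s => s) = n * mu p x := by
  induction n with
  | zero => simp [EE]
  | succ n ih =>
    have h1 : EE p x (n + 1) (fun s => s) = ∑ j, p j * EE p x n (fun s => s + x j) := rfl
    rw [h1]
    have h2 : ∀ j, EE p x n (fun s => s + x j) = n * mu p x + x j := by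
      intro j
      rw [(hE ι p x n).1 (fun s => s) (fun _ => x j), ih, (hE ι p x n).2.2.2.2.1 h.sum]
    simp only [h2, mul_add, sum_add_distrib]
    rw [← sum_mul, h.sum]
    push_cast
    unfold mu
    ring

theorem e3 : S_EEL → S_E3 := by
  intro hE ι _ p x k hk h
  obtain ⟨n, rfl⟩ : ∃ n, k = n + 1 := ⟨k - 1, by omega⟩
  rw [Nat.add_sub_cancel]
  have e1 : GP p x (n + 1) ((n + 1 : ℕ) : ℝ) = ((n + 1 : ℕ) : ℝ) - ((n + 1 : ℕ) : ℝ) * mu p x +
      EE p x (n + 1) (fun s => max (s - ((n + 1 : ℕ) : ℝ)) 0) := by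
    have h1 := (hE ι p x (n + 1)).1 (fun s => ((n + 1 : ℕ) : ℝ) - s)
      (fun s => max (s - ((n + 1 : ℕ) : ℝ)) 0)
    have h2 := (hE ι p x (n + 1)).2.1 (fun _ => ((n + 1 : ℕ) : ℝ)) (fun s => s)
    rw [(hE ι p x (n + 1)).2.2.2.2.1 h.sum, ee_id h hE] at h2
    rw [h2] at h1
    rw [← h1]
    unfold GP
    congr 1
    funext s
    by_cases hs : s < ((n + 1 : ℕ) : ℝ)
    · rw [max_eq_left (by linarith), max_eq_right (by linarith)]
      ring
    · rw [max_eq_right (by linarith), max_eq_left (by linarith)]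
      ring
  have e2 : EE p x (n + 1) (fun s => max (s - ((n + 1 : ℕ) : ℝ)) 0) =
      ∑ i, p i * EE p x n (fun s => max (s + x i - ((n + 1 : ℕ) : ℝ)) 0) := rfl
  have e3 : ∀ i, x i * (1 - PR p x n ((n + 1 : ℕ) : ℝ)) ≤
      EE p x n (fun s => max (s + x i - ((n + 1 : ℕ) : ℝ)) 0) := by
    intro i
    have h2 := (hE ι p x n).2.1 (fun _ => (1 : ℝ)) (fun s => if s < ((n + 1 : ℕ) : ℝ) then 1 else 0)
    rw [(hE ι p x n).2.2.2.2.1 h.sum] at h2
    unfold PR
    rw [← h2, ← (hE ι p x n).2.2.1]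
    refine (hE ι p x n).2.2.2.1 (fun i => (h.pos i).le) h.nn _ _ fun s hs => ?_
    by_cases hs : s < ((n + 1 : ℕ) : ℝ)
    · rw [if_pos hs]
      refine le_trans (le_of_eq ?_) (le_max_right _ _)
      ring
    · rw [if_neg hs]
      refine le_trans ?_ (le_max_left _ _)
      linarith
  have e4 : mu p x * (1 - PR p x n ((n + 1 : ℕ) : ℝ)) ≤
      EE p x (n + 1) (fun s => max (s - ((n + 1 : ℕ) : ℝ)) 0) := by
    rw [e2]
    unfold mu
    rw [sum_mul]
    refine sum_le_sum fun i _ => ?_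
    rw [mul_assoc]
    exact mul_le_mul_of_nonneg_left (e3 i) (h.pos i).le
  rw [e1]
  linarith

end Pool.Agent.Q98.EM
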