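import Pool.Agent.Q54.EM.StmC

set_option autoImplicit false

namespace Pool.Agent.Q98.EM

open Finset Pool.Agent.Q54.EM

lemma cov_nonneg {ι : Type} [Fintype ι] (p x A : ι → ℝ) (hp : ∀ i, 0 ≤ p i) (hs : ∑ i, p i = 1)
    (hA : ∀ i j, x i ≤ x j → A i ≤ A j) :
    0 ≤ ∑ i, p i * x i * A i - (∑ i, p i * x i) * ∑ i, p i * A i := by
  have e1 : ∑ i, ∑ j, p i * p j * ((x i - x j) * (A i - A j)) =
      2 * (∑ i, p i * x i * A i - (∑ i, p i * x i) * ∑ i, p i * A i) := by
    have e2 : ∀ i, ∑ j, p i * p j * ((x i - x j) * (A i - A j)) =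
        p i * x i * A i + p i * ∑ j, p j * x j * A j - p i * x i * ∑ j, p j * A j -
          p i * A i * ∑ j, p j * x j := by
      intro i
      have e3 : ∀ j, p i * p j * ((x i - x j) * (A i - A j)) =
          p i * x i * A i * p j + p i * (p j * x j * A j) - p i * x i * (p j * A j) -
            p i * A i * (p j * x j) := fun j => by ring
      rw [sum_congr rfl fun j _ => e3 j, sum_sub_distrib, sum_sub_distrib, sum_add_distrib,
        ← mul_sum, ← mul_sum, ← mul_sum, ← mul_sum, hs, mul_one]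
    rw [sum_congr rfl fun i _ => e2 i, sum_sub_distrib, sum_sub_distrib, sum_add_distrib,
      ← sum_mul, ← sum_mul, ← sum_mul, hs]
    ring
  have e4 : 0 ≤ ∑ i, ∑ j, p i * p j * ((x i - x j) * (A i - A j)) := by
    refine sum_nonneg fun i _ => sum_nonneg fun j _ => mul_nonneg (mul_nonneg (hp i) (hp j)) ?_
    rcases le_total (x i) (x j) with h1 | h1
    · exact mul_nonneg_of_nonpos_of_nonpos (by linarith) (by linarith [hA i j h1])
    · exact mul_nonneg (by linarith) (by linarith [hA j i h1])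
  linarith

theorem gen : S_CID → S_POS → S_EEL → S_GEN := by
  intro hC hP hE ι _ p x k hk h hm
  obtain ⟨h1, h2, h3, h4⟩ := hP ι p x h
  have hw : 0 < PR p x (k - 1) (k : ℝ) := h1 (k - 1) k (by omega) hk hm
  have e1 := hC ι p x k hk h hm
  have e2 : 0 ≤ ∑ i, p i * x i * AA k p x (x i) - mu p x * ∑ i, p i * AA k p x (x i) := by
    refine cov_nonneg p x (fun i => AA k p x (x i)) (fun i => (h.pos i).le) h.sum
      fun i j hij => ?_
    refine (hE ι p x (k - 1)).2.2.2.1 (fun i => (h.pos i).le) h.nn _ _ fun s hs => ?_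
    by_cases hs : s < (k : ℝ)
    · rw [if_pos hs, if_pos hs]
      exact max_le_max (by linarith) le_rfl
    · rw [if_neg hs, if_neg hs]
  have hk0 : (0 : ℝ) < k := by exact_mod_cast hk
  have e3 : PR p x k k * (VV k p x + hh k p x * et k p x) ≤ k * PR p x (k - 1) k * va p x := by
    rw [e1]
    have := mul_nonneg hk0.le e2
    linarith
  have e4 : lam k p x * (VV k p x + hh k p x * et k p x) =
      PR p x k k * (VV k p x + hh k p x * et k p x) / PR p x (k - 1) k := by
    unfold lam
    ring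
  rw [e4, div_le_iff₀ hw]
  linarith

end Pool.Agent.Q98.EM
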