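import Pool.Agent.Q54.EM.StmC

set_option autoImplicit false

namespace Pool.Agent.Q98.EM

open Finset Pool.Agent.Q54.EM

theorem idt : S_LMB → S_THT → S_POS → S_IDT := by
  intro hL hT _ ι _ p x k l hk h hm hK
  have h1 := (hL ι p x k l hk h hm hK).1
  have h2 := hT ι p x k l hk h hm hK
  have hl := hK.1
  have hk0 : (0 : ℝ) < k := by exact_mod_cast hk
  have h3 : ∑ i, p i * (x i * (1 - x i / l)) = mu p x - (∑ i, p i * x i ^ 2) / l := by
    unfold mu
    rw [sum_div, ← sum_sub_distrib]
    exact sum_congr rfl fun i _ => by ring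
  rw [h3] at h2
  have h4 : va p x = ∑ i, p i * x i ^ 2 - mu p x ^ 2 := rfl
  have h5 : et k p x * lam k p x * l =
      k * l * (mu p x * lam k p x - lam k p x * (1 - hh k p x / k)) := by
    unfold et
    field_simp
    ring
  rw [h5, h2, h1, h4]
  field_simp
  ring

end Pool.Agent.Q98.EM
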