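import Pool.Agent.Q54.EM.StmC

set_option autoImplicit false

namespace Pool.Agent.Q98.EM

open Finset Pool.Agent.Q54.EM

theorem lh : S_CND → S_POS → S_EEL → S_LH := by
  intro hC hP hE ι _ p x k hk h hm
  obtain ⟨n, rfl⟩ : ∃ n, k = n + 1 := ⟨k - 1, by omega⟩
  obtain ⟨h1, h2, h3, h4⟩ := hP ι p x h
  have hw : 0 < PR p x n ((n + 1 : ℕ) : ℝ) := h1 n (n + 1) (by omega) (by omega) hm
  have hW : 0 < PR p x (n + 1) ((n + 1 : ℕ) : ℝ) := h1 (n + 1) (n + 1) (by omega) (by omega) hm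
  have hk0 : (0 : ℝ) < ((n + 1 : ℕ) : ℝ) := by positivity
  have e0 : lam (n + 1) p x * hh (n + 1) p x =
      GP p x (n + 1) ((n + 1 : ℕ) : ℝ) / PR p x n ((n + 1 : ℕ) : ℝ) := by
    unfold lam hh
    rw [Nat.add_sub_cancel]
    field_simp
  rw [e0, le_div_iff₀ hw]
  have e1 : GP p x (n + 1) ((n + 1 : ℕ) : ℝ) =
      ∑ i, p i * EE p x n (fun s => max (((n + 1 : ℕ) : ℝ) - (s + x i)) 0) := rfl
  have e2 : ∀ i, ((n + 1 : ℕ) : ℝ) * PR p x n ((n + 1 : ℕ) : ℝ) -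
      EE p x n (fun s => s * (if s < ((n + 1 : ℕ) : ℝ) then 1 else 0)) -
      x i * PR p x n ((n + 1 : ℕ) : ℝ) ≤
      EE p x n (fun s => max (((n + 1 : ℕ) : ℝ) - (s + x i)) 0) := by
    intro i
    unfold PR
    rw [← (hE ι p x n).2.2.1, ← (hE ι p x n).2.2.1, ← (hE ι p x n).2.1, ← (hE ι p x n).2.1]
    refine (hE ι p x n).2.2.2.1 (fun i => (h.pos i).le) h.nn _ _ fun s hs => ?_
    by_cases hs : s < ((n + 1 : ℕ) : ℝ)
    · rw [if_pos hs]
      refine le_trans (le_of_eq ?_) (le_max_left _ _)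
      ring
    · rw [if_neg hs]
      refine le_trans (le_of_eq ?_) (le_max_right _ _)
      ring
  have e3 := hC ι p x n ((n + 1 : ℕ) : ℝ) h
  have e4 : ((n + 1 : ℕ) : ℝ) * PR p x n ((n + 1 : ℕ) : ℝ) -
      EE p x n (fun s => s * (if s < ((n + 1 : ℕ) : ℝ) then 1 else 0)) -
      mu p x * PR p x n ((n + 1 : ℕ) : ℝ) ≤ GP p x (n + 1) ((n + 1 : ℕ) : ℝ) := by
    have e5 : ((n + 1 : ℕ) : ℝ) * PR p x n ((n + 1 : ℕ) : ℝ) -
        EE p x n (fun s => s * (if s < ((n + 1 : ℕ) : ℝ) then 1 else 0)) -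
        mu p x * PR p x n ((n + 1 : ℕ) : ℝ) =
        ∑ i, p i * (((n + 1 : ℕ) : ℝ) * PR p x n ((n + 1 : ℕ) : ℝ) -
          EE p x n (fun s => s * (if s < ((n + 1 : ℕ) : ℝ) then 1 else 0)) -
          x i * PR p x n ((n + 1 : ℕ) : ℝ)) := by
      simp only [mul_sub, sum_sub_distrib]
      simp only [← sum_mul, h.sum, one_mul, ← mul_assoc]
      rfl
    rw [e1, e5]
    exact sum_le_sum fun i _ => mul_le_mul_of_nonneg_left (e2 i) (h.pos i).le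
  refine le_trans ?_ e4
  push_cast at e3 ⊢
  linarith

end Pool.Agent.Q98.EM
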