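import Pool.Agent.Q54.EM.StmC

set_option autoImplicit false

namespace Pool.Agent.Q98.EM

open Finset Pool.Agent.Q54.EM

theorem lmb : S_POS → S_EEL → S_LMB := by
  intro hP hE ι _ p x k l hk h hm hK
  obtain ⟨hl, hKK⟩ := hK
  obtain ⟨n, rfl⟩ : ∃ n, k = n + 1 := ⟨k - 1, by omega⟩
  obtain ⟨h1, h2, h3, h4⟩ := hP ι p x h
  rw [Nat.add_sub_cancel] at hKK
  have hw : 0 < PR p x n ((n + 1 : ℕ) : ℝ) := h1 n (n + 1) (by omega) (by omega) hm
  have hW : PR p x (n + 1) ((n + 1 : ℕ) : ℝ) =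
      PR p x n ((n + 1 : ℕ) : ℝ) * (1 - mu p x / l) := by
    have e1 : PR p x (n + 1) ((n + 1 : ℕ) : ℝ) =
        ∑ i, p i * PR p x n (((n + 1 : ℕ) : ℝ) - x i) := by
      show ∑ i, p i * EE p x n (fun s => if s + x i < ((n + 1 : ℕ) : ℝ) then 1 else 0) = _
      refine sum_congr rfl fun i _ => ?_
      unfold PR
      simp only [lt_sub_iff_add_lt]
    rw [e1]
    have e2 : ∀ i, p i * PR p x n (((n + 1 : ℕ) : ℝ) - x i) =
        PR p x n ((n + 1 : ℕ) : ℝ) * (p i - p i * x i / l) := by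
      intro i
      rw [hKK i]
      ring
    rw [sum_congr rfl fun i _ => e2 i, ← mul_sum, sum_sub_distrib, h.sum, ← sum_div]
    rfl
  refine ⟨?_, fun i => ?_⟩
  · unfold lam
    rw [Nat.add_sub_cancel, hW]
    field_simp
  · have e1 := (h2 n (((n + 1 : ℕ) : ℝ) - x i)).1
    rw [hKK i] at e1
    have e2 : 0 ≤ 1 - x i / l := nonneg_of_mul_nonneg_right e1 hw
    have e3 : x i / l ≤ 1 := by linarith
    rwa [div_le_one hl] at e3

end Pool.Agent.Q98.EM
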