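import Pool.Agent.Q54.EM.StmC

set_option autoImplicit false

namespace Pool.Agent.Q98.EM

open Finset Pool.Agent.Q54.EM

lemma ee_single {ι : Type} [Fintype ι] {p x : ι → ℝ} (h : Law p x) (hE : S_EEL) (i : ι) (n : ℕ) :
    ∀ f : ℝ → ℝ, (∀ s, 0 ≤ f s) → p i ^ n * f (n * x i) ≤ EE p x n f := by
  induction n with
  | zero =>
    intro f _
    simp [EE]
  | succ n ih =>
    intro f hf
    have h1 : EE p x (n + 1) f = ∑ j, p j * EE p x n (fun s => f (s + x j)) := rfl
    rw [h1]
    have h0 : ∀ j, 0 ≤ p j * EE p x n (fun s => f (s + x j)) := by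
      intro j
      refine mul_nonneg (h.pos j).le ?_
      have h2 := (hE ι p x n).2.2.2.1 (fun i => (h.pos i).le) h.nn (fun _ => 0)
        (fun s => f (s + x j)) (fun s _ => hf _)
      have h3 := (hE ι p x n).2.2.2.2.1 h.sum 0
      rw [h3] at h2
      exact h2
    refine le_trans ?_ (single_le_sum (f := fun j => p j * EE p x n (fun s => f (s + x j)))
      (fun j _ => h0 j) (mem_univ i))
    have h4 := ih (fun s => f (s + x i)) (fun s => hf _)
    have h5 : p i ^ (n + 1) * f (((n + 1 : ℕ) : ℝ) * x i) =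
        p i * (p i ^ n * f ((n : ℝ) * x i + x i)) := by
      rw [show ((n + 1 : ℕ) : ℝ) * x i = (n : ℝ) * x i + x i by push_cast; ring]
      ring
    rw [h5]
    exact mul_le_mul_of_nonneg_left h4 (h.pos i).le

theorem pos : S_EEL → S_POS := by
  intro hE ι _ p x h
  have hmono : ∀ (n : ℕ) (f g : ℝ → ℝ), (∀ s, 0 ≤ s → f s ≤ g s) → EE p x n f ≤ EE p x n g :=
    fun n f g hfg => (hE ι p x n).2.2.2.1 (fun i => (h.pos i).le) h.nn f g hfg
  have hc : ∀ (n : ℕ) (c : ℝ), EE p x n (fun _ => c) = c := fun n =>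
    (hE ι p x n).2.2.2.2.1 h.sum
  refine ⟨fun n k hnk hk hm => ?_, fun n y => ⟨?_, ?_⟩, fun n y z hyz => ?_, fun n y => ?_⟩
  · obtain ⟨i, hi⟩ : ∃ i, x i < 1 := by
      by_contra hcon
      push Not at hcon
      have : 1 ≤ mu p x := by
        unfold mu
        calc (1 : ℝ) = ∑ i, p i * 1 := by simp [h.sum]
          _ ≤ ∑ i, p i * x i := sum_le_sum fun i _ =>
            mul_le_mul_of_nonneg_left (hcon i) (h.pos i).le
      linarith
    have h1 := ee_single h hE i n (fun s => if s < (k : ℝ) then 1 else 0)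
      (fun s => by split_ifs <;> norm_num)
    have h2 : (n : ℝ) * x i < k := by
      have e1 : (n : ℝ) ≤ k := by exact_mod_cast hnk
      have e2 : (1 : ℝ) ≤ k := by exact_mod_cast hk
      have e3 := h.nn i
      nlinarith
    simp only [h2, if_true, mul_one] at h1
    exact lt_of_lt_of_le (pow_pos (h.pos i) n) h1
  · rw [← hc n 0]
    exact hmono n _ _ fun s _ => by split_ifs <;> norm_num
  · rw [← hc n 1]
    exact hmono n _ _ fun s _ => by split_ifs <;> norm_num
  · refine hmono n _ _ fun s _ => ?_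
    by_cases h1 : s < y
    · rw [if_pos h1, if_pos (lt_of_lt_of_le h1 hyz)]
    · rw [if_neg h1]
      split_ifs <;> norm_num
  · have h1 : PR p x (n + 1) y =
        ∑ i, p i * EE p x n (fun s => if s + x i < y then 1 else 0) := rfl
    rw [h1]
    calc ∑ i, p i * EE p x n (fun s => if s + x i < y then 1 else 0)
        ≤ ∑ i, p i * PR p x n y := by
          refine sum_le_sum fun i _ => mul_le_mul_of_nonneg_left ?_ (h.pos i).le
          refine hmono n _ _ fun s _ => ?_
          by_cases h2 : s + x i < y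
          · rw [if_pos h2, if_pos (by linarith [h.nn i])]
          · rw [if_neg h2]
            split_ifs <;> norm_num
      _ = PR p x n y := by rw [← sum_mul, h.sum, one_mul]

end Pool.Agent.Q98.EM
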