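import Pool.Agent.Q54.EM.StmC

set_option autoImplicit false

namespace Pool.Agent.Q98.EM

open Finset Pool.Agent.Q54.EM

theorem tht : S_POS → S_EEL → S_SZB → S_LMB → S_THT := by
  intro hP hE hS _ ι _ p x k l hk h hm hK
  obtain ⟨hl, hKK⟩ := hK
  obtain ⟨n, rfl⟩ : ∃ n, k = n + 1 := ⟨k - 1, by omega⟩
  obtain ⟨h1, h2, h3, h4⟩ := hP ι p x h
  rw [Nat.add_sub_cancel] at hKK
  have hw : 0 < PR p x n ((n + 1 : ℕ) : ℝ) := h1 n (n + 1) (by omega) (by omega) hm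
  have hW : 0 < PR p x (n + 1) ((n + 1 : ℕ) : ℝ) := h1 (n + 1) (n + 1) (by omega) (by omega) hm
  have hk0 : (0 : ℝ) < ((n + 1 : ℕ) : ℝ) := by positivity
  have e1 : ((n + 1 : ℕ) : ℝ) * PR p x (n + 1) ((n + 1 : ℕ) : ℝ) -
      GP p x (n + 1) ((n + 1 : ℕ) : ℝ) =
      EE p x (n + 1) (fun s => s * (if s < ((n + 1 : ℕ) : ℝ) then 1 else 0)) := by
    unfold PR GP
    rw [← (hE ι p x (n + 1)).2.2.1, ← (hE ι p x (n + 1)).2.1]
    congr 1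
    funext s
    by_cases hs : s < ((n + 1 : ℕ) : ℝ)
    · rw [if_pos hs, max_eq_left (by linarith)]
      ring
    · rw [if_neg hs, max_eq_right (by linarith)]
      ring
  have e2 : EE p x (n + 1) (fun s => s * (if s < ((n + 1 : ℕ) : ℝ) then 1 else 0)) =
      (n + 1 : ℝ) * ∑ i, p i * x i * PR p x n (((n + 1 : ℕ) : ℝ) - x i) := by
    rw [hS ι p x n (fun s => if s < ((n + 1 : ℕ) : ℝ) then 1 else 0)]
    congr 1
    refine sum_congr rfl fun i _ => ?_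
    unfold PR
    simp only [lt_sub_iff_add_lt]
  have e3 : ∑ i, p i * x i * PR p x n (((n + 1 : ℕ) : ℝ) - x i) =
      PR p x n ((n + 1 : ℕ) : ℝ) * ∑ i, p i * (x i * (1 - x i / l)) := by
    rw [mul_sum]
    refine sum_congr rfl fun i _ => ?_
    rw [hKK i]
    ring
  have e4 : ((n + 1 : ℕ) : ℝ) * PR p x (n + 1) ((n + 1 : ℕ) : ℝ) -
      GP p x (n + 1) ((n + 1 : ℕ) : ℝ) = ((n + 1 : ℕ) : ℝ) *
      (PR p x n ((n + 1 : ℕ) : ℝ) * ∑ i, p i * (x i * (1 - x i / l))) := by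
    rw [e1, e2, e3]
    push_cast
    ring
  unfold lam hh
  rw [Nat.add_sub_cancel]
  have e5 : PR p x (n + 1) ((n + 1 : ℕ) : ℝ) / PR p x n ((n + 1 : ℕ) : ℝ) *
      (1 - GP p x (n + 1) ((n + 1 : ℕ) : ℝ) / PR p x (n + 1) ((n + 1 : ℕ) : ℝ) /
        ((n + 1 : ℕ) : ℝ)) = (((n + 1 : ℕ) : ℝ) * PR p x (n + 1) ((n + 1 : ℕ) : ℝ) -
      GP p x (n + 1) ((n + 1 : ℕ) : ℝ)) / (((n + 1 : ℕ) : ℝ) * PR p x n ((n + 1 : ℕ) : ℝ)) := by
    field_simp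
  rw [e5, e4]
  field_simp

end Pool.Agent.Q98.EM
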